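import Mathlib
import Pool.Agent.H22.Fb85c6a.Defs
import Pool.Agent.H22.Fb85c6a.Proof

set_option autoImplicit false

open Filter Topology Pool.Agent.H22.Fb85c6a

namespace Pool.Agent.Results.MP_b85c6a_co.ExactValue

/-- **Answer to Q1.** For all `d ≥ 2` and `n ≥ 1`, `c'_{d-1}(H(d,n)) = ⌊n/3⌋ + 1 = ⌈(n+1)/3⌉`
(and with `c ≤ n/3` cops the robber even evades forever), so the ratio `c'_{d-1}(H(d,n)) (d+1) / n`
tends to `(d+1)/3` for every `d ≥ 2`, and the asymptotic formula of Q1 fails for every `d ≥ 3`. -/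
theorem result :
    (∀ d n : ℕ, 2 ≤ d → 1 ≤ n → searchNumber (hammingGraph d n) (d - 1) = n / 3 + 1) ∧
    (∀ d n c : ℕ, 2 ≤ d → 1 ≤ n → 3 * c ≤ n → ∀ p : ℕ → Fin c → Fin d → Fin n,
      (∀ j, IsWalk (hammingGraph d n) (fun t => p t j)) →
        ∃ r : ℕ → Fin d → Fin n, IsWalk (hammingGraph d n) r ∧
          ∀ t, ¬ SeenAt (hammingGraph d n) (d - 1) p r t) ∧
    (∀ d : ℕ, 2 ≤ d → Tendsto
      (fun n : ℕ => (searchNumber (hammingGraph d n) (d - 1) : ℝ) * (d + 1) / n) atTop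
      (𝓝 (((d : ℝ) + 1) / 3))) ∧
    (∀ d : ℕ, 3 ≤ d → ¬ Tendsto
      (fun n : ℕ => (searchNumber (hammingGraph d n) (d - 1) : ℝ) * (d + 1) / n) atTop (𝓝 1)) := by
  refine ⟨fun d n hd hn => searchNumber_eq hd hn,
    fun d n c hd hn hc p hp => evade (by omega) hc hn hp, tendsto_ratio, ?_⟩
  intro d hd h
  have := tendsto_nhds_unique h (tendsto_ratio d (by omega))
  have hd' : (3 : ℝ) ≤ d := by exact_mod_cast hd
  linarith

end Pool.Agent.Results.MP_b85c6a_co.ExactValue
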